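import Pool.Agent.Lib.MP_6bc78b_nt.MS.P5.Iface

/-! Project MS, Part V, module MOV: the `ω`-integral may be moved to the critical line. -/

set_option autoImplicit false

open Complex Filter Topology MeasureTheory

namespace Pool.Agent.Lib.MP_6bc78b_nt.MS.P5.H51

open Pool.Agent.Lib.MP_6bc78b_nt.MS.P1
open Pool.Agent.Lib.MP_6bc78b_nt.MS.P5
open Pool.Agent.Lib.MP_6bc78b_nt.MS

/-- Cauchy's theorem on the rectangle `[a, b] × [T/2, 2T]` -/
theorem rect_bound (f : ℂ → ℂ) (a b T M : ℝ) (hab : a ≤ b)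
    (hf : DifferentiableOn ℂ f (Set.uIcc a b ×ℂ Set.uIcc (T / 2) (2 * T)))
    (h1 : ∀ x ∈ Set.Icc a b, ‖f (x + (T / 2 : ℝ) * I)‖ ≤ M)
    (h2 : ∀ x ∈ Set.Icc a b, ‖f (x + (2 * T : ℝ) * I)‖ ≤ M) :
    ‖VF b T f - VF a T f‖ ≤ (1 / Real.pi) * (M * (b - a)) := by
  have key := Complex.integral_boundary_rect_eq_zero_of_differentiableOn f
    (⟨a, T / 2⟩ : ℂ) (⟨b, 2 * T⟩ : ℂ) hf
  simp only at key
  have e1 : ‖∫ x in a..b, f (x + (T / 2 : ℝ) * I)‖ ≤ M * |b - a| := by
    apply intervalIntegral.norm_integral_le_of_norm_le_const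
    intro x hx
    rw [Set.uIoc_of_le hab] at hx
    exact h1 x ⟨hx.1.le, hx.2⟩
  have e2 : ‖∫ x in a..b, f (x + (2 * T : ℝ) * I)‖ ≤ M * |b - a| := by
    apply intervalIntegral.norm_integral_le_of_norm_le_const
    intro x hx
    rw [Set.uIoc_of_le hab] at hx
    exact h2 x ⟨hx.1.le, hx.2⟩
  rw [abs_of_nonneg (sub_nonneg.mpr hab)] at e1 e2
  set P := ∫ x in a..b, f (x + (T / 2 : ℝ) * I)
  set Q := ∫ x in a..b, f (x + (2 * T : ℝ) * I)
  have h3 : VF b T f - VF a T f = (1 / (2 * Real.pi) : ℂ) *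
      ((∫ t in (T / 2)..(2 * T), f (b + t * I)) - ∫ t in (T / 2)..(2 * T), f (a + t * I)) := by
    unfold VF
    ring
  have h4 : I * ((∫ t in (T / 2)..(2 * T), f (b + t * I)) -
      ∫ t in (T / 2)..(2 * T), f (a + t * I)) = Q - P := by
    simp only [smul_eq_mul] at key
    linear_combination key
  have h5 : ‖(∫ t in (T / 2)..(2 * T), f (b + t * I)) -
      ∫ t in (T / 2)..(2 * T), f (a + t * I)‖ = ‖Q - P‖ := by
    rw [← h4, norm_mul, Complex.norm_I, one_mul]
  rw [h3, norm_mul, h5]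
  have h6 : ‖(1 / (2 * Real.pi) : ℂ)‖ = 1 / (2 * Real.pi) := by
    rw [norm_div, norm_one, norm_mul, Complex.norm_real, Real.norm_eq_abs,
      abs_of_pos Real.pi_pos]
    norm_num
  rw [h6]
  have h7 : ‖Q - P‖ ≤ M * (b - a) + M * (b - a) := (norm_sub_le _ _).trans (add_le_add e2 e1)
  calc 1 / (2 * Real.pi) * ‖Q - P‖ ≤ 1 / (2 * Real.pi) * (M * (b - a) + M * (b - a)) := by
        apply mul_le_mul_of_nonneg_left h7
        positivity
    _ = (1 / Real.pi) * (M * (b - a)) := by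
        field_simp
        ring

/-- `ω` is holomorphic in the open right half plane off the real axis -/
theorem om_diff (hchi : ChiStatement) (s : ℂ) (h1 : 0 < s.re) (h2 : s.im ≠ 0) :
    DifferentiableAt ℂ om s := by
  obtain ⟨hd, h0, _, _, _⟩ := hchi
  have hopen : IsOpen {s : ℂ | 0 < s.re} := isOpen_lt continuous_const Complex.continuous_re
  have hX : DifferentiableOn ℂ XX {s : ℂ | 0 < s.re} := fun z hz => (hd z hz).differentiableWithinAt
  have hX' : DifferentiableOn ℂ (deriv XX) {s : ℂ | 0 < s.re} := hX.deriv hopen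
  have h3 : DifferentiableAt ℂ (deriv XX) s := (hX' s h1).differentiableAt (hopen.mem_nhds h1)
  have h4 : om = fun z => deriv XX z / XX z := by
    funext z
    rfl
  rw [h4]
  exact h3.div (hd s h1) (h0 s h1 h2)

/-- module MOV -/
theorem mov (hchi : ChiStatement) (hcho : OmAsympStatement) (hgau : GaussStatement)
    (hddf : DDStatement) : MovStatement := by
  intro A c hc1 hc2
  obtain ⟨C, hC0, hC⟩ := hcho
  have hD1 := hddf.1 (A + 2)
  have hD2 := hddf.2.2.1
  filter_upwards [hD1, hD2, eventually_ge_atTop (20 : ℝ), eventually_ge_atTop (2 * C)]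
    with T hT1 hT2 hT20 hTC F hF hFb
  obtain ⟨-, hDD1, -, -⟩ := hT2
  have hT0 : 0 < T := by linarith
  have hWd : Differentiable ℂ (WW T) := by
    unfold WW
    fun_prop
  -- the bound on the horizontal sides
  have hside : ∀ y : ℝ, (y = T / 2 ∨ y = 2 * T) → ∀ x ∈ Set.Icc (1 / 2 : ℝ) c,
      ‖om (x + y * I) * F (x + y * I) * WW T (x + y * I)‖ ≤ 2 * T * T ^ A * (3 * T ^ (-(A + 2))) := by
    intro y hy x hx
    have hy1 : T / 2 ≤ y := by rcases hy with h | h <;> linarith
    have hy2 : y ≤ 2 * T := by rcases hy with h | h <;> linarith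
    have hyT : T ^ 2 / 16 ≤ (y - T) ^ 2 := by
      rcases hy with h | h <;> rw [h] <;> nlinarith
    have hy10 : 10 ≤ y := by linarith
    have hre : (x + y * I : ℂ).re = x := by simp
    have him : (x + y * I : ℂ).im = y := by simp
    -- om
    have hom : ‖om (x + y * I)‖ ≤ 2 * T := by
      have h1 := hC (x + y * I) (by rw [hre]; linarith [hx.1]) (by rw [hre]; linarith [hx.2])
        (by rw [him]; linarith)
      rw [him] at h1
      have h2 : ‖om (x + y * I)‖ ≤ ‖(Real.log (y / (2 * Real.pi)) : ℂ)‖ + C / y := by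
        calc ‖om (x + y * I)‖ = ‖(Real.log (y / (2 * Real.pi)) : ℂ) +
              (om (x + y * I) - (Real.log (y / (2 * Real.pi)) : ℂ))‖ := by
                congr 1; ring
          _ ≤ _ := (norm_add_le _ _).trans (by linarith)
      have hpi := Real.pi_gt_three
      have hpi4 := Real.pi_le_four
      have h3 : 1 ≤ y / (2 * Real.pi) := by
        rw [le_div_iff₀ (by positivity)]
        linarith
      have h4 : Real.log (y / (2 * Real.pi)) ≤ y / (2 * Real.pi) - 1 :=
        Real.log_le_sub_one_of_pos (by positivity)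
      have h5 : y / (2 * Real.pi) ≤ y / 6 := by
        apply div_le_div_of_nonneg_left (by linarith) (by norm_num) (by linarith)
      have h6 : ‖(Real.log (y / (2 * Real.pi)) : ℂ)‖ = Real.log (y / (2 * Real.pi)) := by
        rw [Complex.norm_real, Real.norm_eq_abs, abs_of_nonneg (Real.log_nonneg h3)]
      have h7 : C / y ≤ 1 := by
        rw [div_le_one (by linarith)]
        linarith
      rw [h6] at h2
      linarith
    have hFs : ‖F (x + y * I)‖ ≤ T ^ A := by
      apply hFb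
      refine ⟨⟨?_, ?_⟩, ?_, ?_⟩
      · rw [hre]; linarith [hx.1]
      · rw [hre]; linarith [hx.2]
      · rw [him]; linarith
      · rw [him]; linarith
    have hW : ‖WW T (x + y * I)‖ ≤ 3 * T ^ (-(A + 2)) := by
      rw [hgau.2.1 T x y]
      have hDpos : 0 < DD T ^ 2 := by positivity
      have h1 : ((x - 1 / 2) ^ 2 - (y - T) ^ 2) / DD T ^ 2 ≤ 1 + -(T ^ 2 / (16 * DD T ^ 2)) := by
        have h2 : (x - 1 / 2) ^ 2 ≤ 1 := by
          have := hx.1; have := hx.2
          nlinarith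
        have h3 : (1 : ℝ) ≤ DD T ^ 2 := by nlinarith
        have h4 : 1 + -(T ^ 2 / (16 * DD T ^ 2)) = (DD T ^ 2 - T ^ 2 / 16) / DD T ^ 2 := by
          field_simp
          ring
        rw [h4]
        exact div_le_div_of_nonneg_right (by linarith) hDpos.le
      calc Real.exp (((x - 1 / 2) ^ 2 - (y - T) ^ 2) / DD T ^ 2)
          ≤ Real.exp (1 + -(T ^ 2 / (16 * DD T ^ 2))) := Real.exp_le_exp.mpr h1
        _ = Real.exp 1 * Real.exp (-(T ^ 2 / (16 * DD T ^ 2))) := Real.exp_add _ _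
        _ ≤ 3 * T ^ (-(A + 2)) := by
            apply mul_le_mul _ hT1 (Real.exp_pos _).le (by norm_num)
            have := Real.exp_one_lt_d9
            linarith
    rw [norm_mul, norm_mul]
    have hTA : 0 ≤ T ^ A := Real.rpow_nonneg hT0.le A
    apply mul_le_mul (mul_le_mul hom hFs (norm_nonneg _) (by linarith)) hW (norm_nonneg _)
    positivity
  -- the rectangle
  have hrect : DifferentiableOn ℂ (fun s => om s * F s * WW T s)
      (Set.uIcc (1 / 2 : ℝ) c ×ℂ Set.uIcc (T / 2) (2 * T)) := by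
    have hmem : ∀ s ∈ (Set.uIcc (1 / 2 : ℝ) c ×ℂ Set.uIcc (T / 2) (2 * T)),
        (1 / 2 ≤ s.re ∧ s.re ≤ c) ∧ (T / 2 ≤ s.im ∧ s.im ≤ 2 * T) := by
      intro s hs
      rw [Complex.mem_reProdIm, Set.uIcc_of_le (by linarith), Set.uIcc_of_le (by linarith)] at hs
      exact hs
    have hsub : (Set.uIcc (1 / 2 : ℝ) c ×ℂ Set.uIcc (T / 2) (2 * T)) ⊆ SB T := by
      intro s hs
      obtain ⟨⟨h1, h2⟩, h3, h4⟩ := hmem s hs
      exact ⟨⟨by linarith, by linarith⟩, by linarith, by linarith⟩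
    refine DifferentiableOn.mul (DifferentiableOn.mul ?_ (hF.mono hsub)) hWd.differentiableOn
    intro s hs
    obtain ⟨⟨h1, h2⟩, h3, h4⟩ := hmem s hs
    have h0 : s.im ≠ 0 := by
      intro h0
      linarith
    exact (om_diff hchi s (by linarith) h0).differentiableWithinAt
  have hfin := rect_bound (fun s => om s * F s * WW T s) (1 / 2) c T
    (2 * T * T ^ A * (3 * T ^ (-(A + 2)))) (by linarith) hrect
    (fun x hx => hside (T / 2) (Or.inl rfl) x hx) (fun x hx => hside (2 * T) (Or.inr rfl) x hx)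
  refine hfin.trans ?_
  have hpow : T ^ A * T ^ (-(A + 2)) = (T ^ 2)⁻¹ := by
    rw [← Real.rpow_add hT0, show A + -(A + 2) = (-2 : ℝ) by ring, Real.rpow_neg hT0.le]
    norm_num
  have h8 : 2 * T * T ^ A * (3 * T ^ (-(A + 2))) = 6 / T := by
    calc 2 * T * T ^ A * (3 * T ^ (-(A + 2))) = 6 * T * (T ^ A * T ^ (-(A + 2))) := by ring
      _ = 6 / T := by rw [hpow]; field_simp
  rw [h8]
  have hpi := Real.pi_gt_three
  have h9 : 6 / T * (c - 1 / 2) ≤ 1 := by
    rw [div_mul_eq_mul_div, div_le_one hT0]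
    linarith
  have h10 : 1 / Real.pi ≤ 1 := by
    rw [div_le_one Real.pi_pos]; linarith
  have h11 : 0 ≤ 6 / T * (c - 1 / 2) := mul_nonneg (by positivity) (by linarith)
  calc 1 / Real.pi * (6 / T * (c - 1 / 2)) ≤ 1 * 1 := by
        apply mul_le_mul h10 h9 h11 (by norm_num)
    _ = 1 := by norm_num

end Pool.Agent.Lib.MP_6bc78b_nt.MS.P5.H51
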